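import Pool.Agent.N889.WU.Stm2

/-!
# Project WU, part P1: at most one periodic point (helper454)
-/

set_option autoImplicit false

open Polynomial IntermediateField

namespace Pool.Agent.N454.WU

open Pool.Agent.N889.WU

universe u

section

variable {k L : Type u} [Field k] [Field L] [Algebra k L]

theorem finite_orbit {X : Type*} {f : X → X} {x : X} (hx : x ∈ Function.periodicPts f) :
    (Set.range fun m : ℕ => f^[m] x).Finite := by
  obtain ⟨n, hn, hp⟩ := hx
  refine ((Set.finite_Iio n).image fun m => f^[m] x).subset ?_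
  rintro _ ⟨m, rfl⟩
  exact ⟨m % n, Nat.mod_lt _ hn, hp.iterate_mod_apply m⟩

theorem exists_pred {X : Type*} {f : X → X} {x : X} (hx : x ∈ Function.periodicPts f) :
    ∃ y, f y = x := by
  obtain ⟨n, hn, hp⟩ := hx
  obtain ⟨m, rfl⟩ : ∃ m, n = m + 1 := ⟨n - 1, by omega⟩
  refine ⟨f^[m] x, ?_⟩
  rw [← Function.iterate_succ_apply' f m x]
  exact hp

theorem map_periodic {X : Type*} {f : X → X} {x : X} (hx : x ∈ Function.periodicPts f) :
    f x ∈ Function.periodicPts f := by
  obtain ⟨n, hn, hp⟩ := hx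
  exact ⟨n, hn, hp.apply⟩

/-- the polynomial whose coefficients are the `p`-th roots -/
theorem exists_root_poly (p : ℕ) [Fact p.Prime] [IsAlgClosed k] [CharP k p] (h : k[X]) :
    ∃ h' : k[X], h'.natDegree = h.natDegree ∧ ∀ y : L, aeval (y ^ p) h = (aeval y h') ^ p := by
  have : ExpChar k p := ExpChar.prime Fact.out
  have : PerfectRing k p := PerfectField.toPerfectRing p
  refine ⟨h.map (frobeniusEquiv k p).symm.toRingHom, ?_, fun y => ?_⟩
  · exact natDegree_map_eq_of_injective (frobeniusEquiv k p).symm.injective h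
  · have e : (h.map (frobeniusEquiv k p).symm.toRingHom).map (frobenius k p) = h := by
      rw [Polynomial.map_map]
      have : (frobenius k p).comp (frobeniusEquiv k p).symm.toRingHom = RingHom.id k := by
        ext a
        exact frobenius_apply_frobeniusEquiv_symm k p a
      rw [this, Polynomial.map_id]
    have e2 : expand k p h = (h.map (frobeniusEquiv k p).symm.toRingHom) ^ p := by
      calc expand k p h
          = expand k p ((h.map (frobeniusEquiv k p).symm.toRingHom).map (frobenius k p)) := by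
            rw [e]
        _ = (expand k p (h.map (frobeniusEquiv k p).symm.toRingHom)).map (frobenius k p) :=
            (Polynomial.map_expand).symm
        _ = _ := Polynomial.map_frobenius_expand ..
    rw [← Polynomial.expand_aeval, e2, map_pow]

/-- the derivative at a periodic point -/
theorem D_periodic (p s : ℕ) [CharP k p] (hs : 1 ≤ s) (h : k[X]) (c : L) (D : Derivation k L L)
    {x : L} (hx : x ∈ Function.periodicPts (fm p s h c)) : D x = D c := by
  obtain ⟨y, hy⟩ := exists_pred hx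
  have : CharP L p := charP_of_injective_algebraMap (algebraMap k L).injective p
  have h0 : ((p ^ s : ℕ) : L) = 0 := by
    rw [Nat.cast_pow, CharP.cast_eq_zero, zero_pow (by omega)]
  rw [← hy, fm, map_add, Derivation.leibniz_pow, ← Nat.cast_smul_eq_nsmul L, h0, zero_smul,
    zero_add]

end

theorem t_P1 (hKP : S_KP.{u}) (hSIZE : S_SIZE.{u}) (hLOC : S_LOC.{u}) (hDER : S_DER.{u})
    (hKER : S_KER.{u}) (hRED : S_RED.{u}) (hMEAS : S_MEAS.{u}) : S_P1.{u} := by
  intro p s _ k L _ _ _ _ _ t ht h c hs hp hfin hc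
  have : FiniteDimensional k⟮t⟯ L := ht.2.1
  have hpos : 0 < Module.finrank k⟮t⟯ L := Module.finrank_pos
  have hpp : p.Prime := Fact.out
  have : ExpChar k p := ExpChar.prime hpp
  have : CharP L p := charP_of_injective_algebraMap (algebraMap k L).injective p
  have : ExpChar L p := ExpChar.prime hpp
  induction hm : Module.finrank k⟮c⟯ L using Nat.strong_induction_on generalizing h c with
  | _ m ih =>
  intro z hz w hw
  by_cases hcp : ∃ b : L, b ^ p = c
  · -- (A)
    obtain ⟨b, rfl⟩ := hcp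
    obtain ⟨h', hdeg, hh'⟩ := exists_root_poly (L := L) p h
    have hb : Transcendental k b := fun hb => hc (hb.pow p)
    obtain ⟨_, hlt⟩ := hMEAS p k L t ht.1 ht.2.1 b hb
    have hsemi : ∀ y, fm p s h (b ^ p) (y ^ p) = (fm p s h' b y) ^ p := by
      intro y
      unfold fm
      rw [hh', add_pow_expChar, ← pow_mul, ← pow_mul, mul_comm]
    have hiter : ∀ n y, (fm p s h (b ^ p))^[n] (y ^ p) = ((fm p s h' b)^[n] y) ^ p := by
      intro n
      induction n with
      | zero => intro y; rfl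
      | succ n ih2 =>
        intro y
        rw [Function.iterate_succ_apply, Function.iterate_succ_apply, hsemi, ih2]
    have hroot : ∀ x ∈ Function.periodicPts (fm p s h (b ^ p)),
        ∃ y ∈ Function.periodicPts (fm p s h' b), y ^ p = x := by
      intro x hx
      obtain ⟨v, hv⟩ := exists_pred hx
      obtain ⟨r, rfl⟩ : ∃ r, s = r + 1 := ⟨s - 1, by omega⟩
      have hy : ((aeval v h) ^ p ^ r + b) ^ p = x := by
        rw [← hv, fm, add_pow_expChar, ← pow_mul, ← pow_succ]
      refine ⟨_, ?_, hy⟩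
      obtain ⟨n, hn, hper⟩ := hx
      refine ⟨n, hn, ?_⟩
      have h1 : (fm p (r + 1) h (b ^ p))^[n] x = x := hper
      rw [← hy, hiter] at h1
      exact frobenius_inj L p h1
    obtain ⟨y1, hy1, rfl⟩ := hroot z hz
    obtain ⟨y2, hy2, rfl⟩ := hroot w hw
    rw [ih _ (hm ▸ hlt) h' b (by rw [hdeg]; exact hp) (by rw [hdeg]; exact hfin) hb rfl
      y1 hy1 y2 hy2]
  · -- (B)
    by_contra hzw
    obtain ⟨z, w, hz, hw, hzw, hfz⟩ : ∃ z w : L, z ∈ Function.periodicPts (fm p s h c) ∧
        w ∈ Function.periodicPts (fm p s h c) ∧ z ≠ w ∧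
        (fm p s h c z = z ∨ fm p s h c z = w) := by
      by_cases hf : fm p s h c z = z
      · exact ⟨z, w, hz, hw, hzw, Or.inl hf⟩
      · exact ⟨z, fm p s h c z, hz, map_periodic hz, fun h => hf h.symm, Or.inr rfl⟩
    obtain ⟨M, _, _, i, t₁, z₁, w₁, hit, hiz, hiw, ht₁, hfin₁, hadj⟩ := hRED k L t z w ht
    have : CharP M p := charP_of_injective_algebraMap (algebraMap k M).injective p
    obtain ⟨c₁, hic⟩ : ∃ c₁ : M, i c₁ = c := by
      rcases hfz with hfz | hfz
      · refine ⟨z₁ - (aeval z₁ h) ^ p ^ s, ?_⟩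
        rw [map_sub, map_pow, ← aeval_algHom_apply, hiz, sub_eq_iff_eq_add, add_comm]
        exact hfz.symm
      · refine ⟨w₁ - (aeval z₁ h) ^ p ^ s, ?_⟩
        rw [map_sub, map_pow, ← aeval_algHom_apply, hiz, hiw, sub_eq_iff_eq_add, add_comm]
        exact hfz.symm
    have hif : ∀ x, i (fm p s h c₁ x) = fm p s h c (i x) := by
      intro x
      unfold fm
      rw [map_add, map_pow, ← aeval_algHom_apply, hic]
    have hiter : ∀ n x, i ((fm p s h c₁)^[n] x) = (fm p s h c)^[n] (i x) := by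
      intro n
      induction n with
      | zero => intro x; rfl
      | succ n ih2 =>
        intro x
        rw [Function.iterate_succ_apply, Function.iterate_succ_apply, ih2, hif]
    have hinj : Function.Injective i := i.toRingHom.injective
    have hper : ∀ x, i x ∈ Function.periodicPts (fm p s h c) →
        x ∈ Function.periodicPts (fm p s h c₁) := by
      rintro x ⟨n, hn, hx⟩
      refine ⟨n, hn, hinj ?_⟩
      rw [hiter]
      exact hx
    have hz₁ := hper z₁ (hiz ▸ hz)
    have hw₁ := hper w₁ (hiw ▸ hw)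
    have hne : z₁ ≠ w₁ := by
      rintro rfl
      exact hzw (hiz.symm.trans hiw)
    obtain ⟨D, hD⟩ := hDER k M t₁ ht₁
    have hDc : D c₁ ≠ 0 := by
      intro h0
      obtain ⟨b, hb⟩ := hKER p k M t₁ D ht₁ hD c₁ h0
      exact hcp ⟨i b, by rw [← map_pow, hb, hic]⟩
    have hy : (z₁ - w₁) * D c₁ ≠ 0 := mul_ne_zero (sub_ne_zero.mpr hne) hDc
    refine hy (hKP k M t₁ D ht₁ hD (h.natDegree - 3) (by omega) z₁ w₁ _ hadj ?_)
    intro A hA N hN a b hab
    refine hLOC p s k M h c₁ z₁ w₁ A D N hs (by omega) hp hA hN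
      (D_periodic p s hs h c₁ D hz₁) (D_periodic p s hs h c₁ D hw₁) ?_ a b (by omega)
    have hsz : ∀ x ∈ Function.periodicPts (fm p s h c₁),
        ∀ y ∈ Function.periodicPts (fm p s h c₁),
        (c₁ ∈ A → x ∈ A) ∧ (c₁ ∉ A → x ∉ A ∧ x / y ∈ A) := fun x hx y hy =>
      hSIZE p s k M h c₁ A (by omega) hA.1 x y (finite_orbit hx) (finite_orbit hy)
    by_cases hcA : c₁ ∈ A
    · exact Or.inl ⟨(hsz z₁ hz₁ z₁ hz₁).1 hcA, (hsz w₁ hw₁ w₁ hw₁).1 hcA⟩
    · refine Or.inr ⟨((hsz z₁ hz₁ z₁ hz₁).2 hcA).1, ((hsz w₁ hw₁ w₁ hw₁).2 hcA).1,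
        ((hsz z₁ hz₁ w₁ hw₁).2 hcA).2, ((hsz w₁ hw₁ z₁ hz₁).2 hcA).2,
        ((hsz _ (map_periodic hz₁) z₁ hz₁).2 hcA).2, ((hsz _ (map_periodic hw₁) z₁ hz₁).2 hcA).2⟩

end Pool.Agent.N454.WU
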